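import Pool.Agent.Helper62.IX.Stm
import Pool.Agent.Helper13.HX.Stab
import Pool.Agent.Helper13.GX.HW

/-!
# The residue at infinity is horizontal (package I1, helper13)
-/

set_option autoImplicit false

open Polynomial Matrix Finset

namespace Pool.Agent.Helper13.IX

open Pool.Agent.Helper62.BM Pool.Agent.Helper62.BW Pool.Agent.Helper62.CX Pool.Agent.Helper62.GX
open Pool.Agent.Helper62.IX
open Pool.Agent.Helper13.HX Pool.Agent.Helper13.GX

section refl

variable {R : Type} [CommRing R]

theorem coeff_XD (f : R[X]) (i : ℕ) : (X * derivative f).coeff i = (i : R) * f.coeff i := by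
  cases i with
  | zero => simp
  | succ k =>
    rw [coeff_X_mul, coeff_derivative]
    push_cast
    ring

theorem refl_der (f : R[X]) (N : ℕ) (h : f.natDegree ≤ N) :
    reflect N (derivative f) = X * ((N : R[X]) * reflect N f - X * derivative (reflect N f)) := by
  ext i
  cases i with
  | zero =>
    rw [coeff_reflect, revAt_le (Nat.zero_le _), Nat.sub_zero, coeff_derivative,
      coeff_eq_zero_of_natDegree_lt (by omega), zero_mul, mul_coeff_zero, coeff_X_zero, zero_mul]
  | succ k =>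
    rw [coeff_X_mul, coeff_sub, coeff_XD, coeff_natCast_mul, coeff_reflect, coeff_reflect,
      coeff_derivative]
    rcases lt_or_ge k N with hk | hk
    · rw [revAt_le (by omega), revAt_le (by omega)]
      have h1 : N - (k + 1) + 1 = N - k := by omega
      rw [h1]
      have h2 : ((N - (k + 1) : ℕ) : R) + 1 = (N : R) - k := by
        have h3 : ((N - (k + 1) : ℕ) : R) + 1 = ((N - k : ℕ) : R) := by
          rw [← h1]
          push_cast
          ring
        rw [h3, Nat.cast_sub hk.le]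
      rw [h2]
      ring
    · rw [revAt_eq_self_of_lt (by omega), coeff_eq_zero_of_natDegree_lt (by omega), zero_mul]
      rcases eq_or_lt_of_le hk with h4 | h4
      · rw [h4, sub_self]
      · rw [revAt_eq_self_of_lt h4, coeff_eq_zero_of_natDegree_lt (by omega), mul_zero, mul_zero,
          sub_zero]

theorem refl_der' (f : R[X]) (n : ℕ) (h : f.natDegree ≤ n + 1) :
    reflect n (derivative f) =
      ((n + 1 : ℕ) : R[X]) * reflect (n + 1) f - X * derivative (reflect (n + 1) f) := by
  ext i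
  rw [coeff_sub, coeff_XD, coeff_natCast_mul, coeff_reflect, coeff_reflect, coeff_derivative]
  rcases lt_or_ge i (n + 1) with hk | hk
  · rw [revAt_le (by omega), revAt_le (by omega)]
    have h1 : n - i + 1 = n + 1 - i := by omega
    rw [h1]
    have h2 : ((n - i : ℕ) : R) + 1 = ((n + 1 : ℕ) : R) - i := by
      rw [Nat.cast_sub (by omega)]
      push_cast
      ring
    rw [h2]
    ring
  · rw [revAt_eq_self_of_lt (by omega), coeff_eq_zero_of_natDegree_lt (by omega), zero_mul]
    rcases eq_or_lt_of_le hk with h4 | h4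
    · rw [← h4, sub_self]
    · rw [revAt_eq_self_of_lt h4, coeff_eq_zero_of_natDegree_lt (by omega), mul_zero, mul_zero,
        sub_zero]

theorem refl_succ (f : R[X]) (N : ℕ) (h : f.natDegree ≤ N) :
    reflect (N + 1) f = X * reflect N f := by
  have h1 := reflect_mul f (1 : R[X]) h (show (1 : R[X]).natDegree ≤ 1 by simp)
  rw [mul_one, reflect_one, pow_one, mul_comm] at h1
  exact h1

theorem refl_nat (f : R[X]) (N k : ℕ) : reflect N ((k : R[X]) * f) = (k : R[X]) * reflect N f := by
  have h1 := reflect_C_mul f (k : R) N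
  rwa [map_natCast] at h1

theorem refl_sum {κ : Type} (s : Finset κ) (f : κ → R[X]) (N : ℕ) :
    reflect N (∑ i ∈ s, f i) = ∑ i ∈ s, reflect N (f i) := by
  classical
  induction s using Finset.induction_on with
  | empty => simp
  | insert i s hi ih => rw [Finset.sum_insert hi, Finset.sum_insert hi, reflect_add, ih]

theorem natDegree_prod_le' {κ : Type} (s : Finset κ) (f : κ → R[X]) (d : κ → ℕ)
    (h : ∀ i ∈ s, (f i).natDegree ≤ d i) : (∏ i ∈ s, f i).natDegree ≤ ∑ i ∈ s, d i :=
  (natDegree_prod_le s f).trans (Finset.sum_le_sum h)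

theorem refl_prod {κ : Type} (s : Finset κ) (f : κ → R[X]) (d : κ → ℕ)
    (h : ∀ i ∈ s, (f i).natDegree ≤ d i) :
    reflect (∑ i ∈ s, d i) (∏ i ∈ s, f i) = ∏ i ∈ s, reflect (d i) (f i) := by
  classical
  induction s using Finset.induction_on with
  | empty => simp
  | insert i s hi ih =>
    have h1 : ∀ j ∈ s, (f j).natDegree ≤ d j := fun j hj => h j (Finset.mem_insert_of_mem hj)
    rw [Finset.prod_insert hi, Finset.sum_insert hi, Finset.prod_insert hi, ← ih h1]
    exact reflect_mul _ _ (h i (Finset.mem_insert_self _ _)) (natDegree_prod_le' s f d h1)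

variable {κ : Type} [Fintype κ] [DecidableEq κ]

theorem refl_lam (ρ d : κ → ℕ) (a a' : κ → R[X]) (h : ∀ i, (a i).natDegree ≤ d i)
    (h' : ∀ i, (a' i).natDegree ≤ d i) :
    reflect (∑ i, d i) (LamG ρ a a') = LamG ρ (fun i => reflect (d i) (a i))
      (fun i => reflect (d i) (a' i)) := by
  unfold LamG
  rw [refl_sum]
  refine Finset.sum_congr rfl fun l _ => ?_
  rw [← Finset.add_sum_erase univ d (Finset.mem_univ l)]
  rw [← refl_prod _ _ _ fun i _ => h i, ← refl_nat]
  refine reflect_mul _ _ ?_ (natDegree_prod_le' _ _ _ fun i _ => h i)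
  refine natDegree_mul_le.trans ?_
  rw [natDegree_natCast, zero_add]
  exact h' l

theorem natDegree_lam (ρ d : κ → ℕ) (a a' : κ → R[X]) (h : ∀ i, (a i).natDegree ≤ d i)
    (h' : ∀ i, (a' i).natDegree ≤ d i) : (LamG ρ a a').natDegree ≤ ∑ i, d i := by
  unfold LamG
  refine natDegree_sum_le_of_forall_le _ _ fun l _ => ?_
  rw [← Finset.add_sum_erase univ d (Finset.mem_univ l)]
  refine natDegree_mul_le.trans (add_le_add ?_ (natDegree_prod_le' _ _ _ fun i _ => h i))
  refine natDegree_mul_le.trans ?_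
  rw [natDegree_natCast, zero_add]
  exact h' l

theorem lam_lin (ρ d : κ → ℕ) (b Db : κ → R[X]) :
    LamG ρ b (fun l => X * ((d l : R[X]) * b l - Db l)) =
      X * (((∑ l, ρ l * d l : ℕ) : R[X]) * ∏ l, b l - LamG ρ b Db) := by
  unfold LamG
  push_cast
  rw [mul_sub, Finset.sum_mul, Finset.mul_sum, Finset.mul_sum, ← Finset.sum_sub_distrib]
  refine Finset.sum_congr rfl fun l _ => ?_
  rw [← Finset.mul_prod_erase univ b (Finset.mem_univ l)]
  ring

theorem D_pow {B : Type} [CommRing B] (D : B → B)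
    (hmul : ∀ x y, D (x * y) = D x * y + x * D y) (x : B) (n : ℕ) :
    D (x ^ (n + 1)) = ((n + 1 : ℕ) : B) * x ^ n * D x := by
  induction n with
  | zero => simp
  | succ n ih =>
    rw [pow_succ, hmul, ih]
    push_cast
    ring

/-- logarithmic derivatives -/
theorem dlog (D : R[X] → R[X]) (h1 : D 1 = 0) (hmul : ∀ x y, D (x * y) = D x * y + x * D y)
    (k m : ℕ) (hm : 0 < m) (hDk : ∀ E, X ^ k ∣ D (1 + X ^ k * E)) (ρ : κ → ℕ)
    (hρ : ∀ l, 0 < ρ l) (b : κ → R[X]) (T : R[X]) (hT : X ^ k ∣ T ^ m * ∏ l, b l ^ ρ l - 1) :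
    X ^ k ∣ (m : R[X]) * D T * (∏ l, b l) + T * LamG ρ b (fun l => D (b l)) := by
  obtain ⟨E, hE⟩ := hT
  obtain ⟨s, hs⟩ : ∃ s : κ → ℕ, ∀ l, ρ l = s l + 1 := ⟨fun l => ρ l - 1, fun l => by
    have := hρ l
    change ρ l = ρ l - 1 + 1
    omega⟩
  obtain ⟨m', rfl⟩ : ∃ m', m = m' + 1 := ⟨m - 1, by omega⟩
  have h2 := D_prod D h1 hmul (D_pow D hmul) s b univ
  have h3 : ∏ l, b l ^ ρ l = (∏ l, b l ^ s l) * ∏ l, b l := by
    rw [← Finset.prod_mul_distrib]
    exact Finset.prod_congr rfl fun l _ => by rw [hs l, pow_succ]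
  have h4 : D (∏ l, b l ^ ρ l) = (∏ l, b l ^ s l) * LamG ρ b (fun l => D (b l)) := by
    unfold LamG
    simp only [hs]
    exact h2
  have h5 : T ^ (m' + 1) * ∏ l, b l ^ ρ l = 1 + X ^ k * E := by
    rw [← hE]
    ring
  obtain ⟨F, hF⟩ := hDk E
  rw [← h5, hmul, D_pow D hmul, h4] at hF
  rw [h3] at h5 hF
  refine ⟨T * (∏ l, b l) * F - E * (((m' + 1 : ℕ) : R[X]) * D T * (∏ l, b l) + T * LamG ρ b (fun l => D (b l))), ?_⟩
  linear_combination (T * (∏ l, b l)) * hF - (((m' + 1 : ℕ) : R[X]) * D T * (∏ l, b l) + T * LamG ρ b (fun l => D (b l))) * h5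

end refl

theorem dt_reflect {A : Type} [CommRing A] (f : A[X][X]) (N : ℕ) :
    reflect N (dt f) = dt (reflect N f) := by
  ext1 i
  rw [coeff_reflect, coeff_dt, coeff_dt, coeff_reflect]

theorem dt_one' {A : Type} [CommRing A] : dt (1 : A[X][X]) = 0 := by
  ext1 i
  rw [coeff_dt, coeff_one, coeff_zero]
  split_ifs
  · rw [derivative_one]
  · rw [derivative_zero]

theorem dt_X_pow {A : Type} [CommRing A] (k : ℕ) : dt ((X : A[X][X]) ^ k) = 0 := by
  ext1 i
  rw [coeff_dt, coeff_X_pow, coeff_zero]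
  split_ifs
  · rw [derivative_one]
  · rw [derivative_zero]

/-- the residue functional as a coefficient -/
theorem res_coeff {R : Type} [CommRing R] (n c : ℕ) (hc : c ≤ n) (T u : R[X]) :
    (reflect n u * T).coeff (n - c) = ∑ j : Fin (n + 1), res c T j * u.coeff j := by
  rw [coeff_mul, Finset.Nat.sum_antidiagonal_eq_sum_range_succ_mk,
    Fin.sum_univ_eq_sum_range (fun j => res c T j * u.coeff j) (n + 1),
    ← Finset.sum_range_reflect (fun j => res c T j * u.coeff j) (n + 1)]
  have h1 : range (n - c).succ ⊆ range (n + 1) := by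
    intro i hi
    rw [Finset.mem_range] at hi ⊢
    omega
  rw [← Finset.sum_subset h1]
  · refine Finset.sum_congr rfl fun i hi => ?_
    rw [Finset.mem_range] at hi
    have h2 : n + 1 - 1 - i = n - i := by omega
    have h3 : n - c - i = n - i - c := by omega
    rw [h2, coeff_reflect, revAt_le (by omega), res, if_neg (by omega), h3, mul_comm]
  · intro i hi hi'
    rw [Finset.mem_range] at hi hi'
    rw [res, if_pos (by omega), zero_mul]

theorem i_Stab : I_Stab := by
  intro κ _ _ A _ _ _ m n ρ nd c hρ hn hm a ha T hT W P S hR l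
  classical
  have hcn : (c : ℕ) ≤ n := Nat.lt_succ_iff.1 c.2
  have hln : (l : ℕ) ≤ n := Nat.lt_succ_iff.1 l.2
  obtain ⟨hT0, hTd⟩ := hT
  -- `m ≠ 0`
  have hm0 : 0 < m := by
    obtain ⟨i, -⟩ : ∃ i, i ∈ (univ : Finset κ) := by
      by_contra h
      push Not at h
      have : (univ : Finset κ) = ∅ := Finset.eq_empty_of_forall_notMem h
      rw [this, Finset.sum_empty] at hn
      omega
    exact (hρ i).1.trans (hρ i).2
  obtain ⟨b, hb⟩ : ∃ b : κ → A[X][X], ∀ i, b i = reflect (nd i) (a i) := ⟨_, fun _ => rfl⟩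
  have hTd' : X ^ (n + 2) ∣ T ^ m * ∏ i, b i ^ ρ i - 1 := by
    simp only [hb]
    exact hTd
  have hdeg : ∀ i, (a i).natDegree ≤ nd i := fun i => (ha.1 i).2.le
  -- the two logarithmic derivatives
  have e1 := dlog dt dt_one' dt_mul' (n + 2) m hm0 (fun E => by
    rw [dt_add', dt_one', dt_mul', dt_X_pow, zero_mul, zero_add, zero_add]
    exact dvd_mul_right _ _) ρ (fun i => (hρ i).1) b T hTd'
  have e2 := dlog (fun f : A[X][X] => X * derivative f) (by simp) (fun x y => by
    rw [derivative_mul]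
    ring) (n + 2) m hm0 (fun E => by
      refine ⟨(((n + 2 : ℕ) : A[X][X])) * E + X * derivative E, ?_⟩
      rw [derivative_add, derivative_one, zero_add, derivative_mul, derivative_X_pow,
        show n + 2 - 1 = n + 1 from rfl]
      simp only [map_natCast]
      ring) ρ (fun i => (hρ i).1) b T hTd'
  -- the reflected relation
  obtain ⟨hP, hS, hrel⟩ := hR l
  have hsum : ∑ i, ρ i * nd i = m * ((c : ℕ) + 1) := hm.symm
  have hda : (∏ i, a i).natDegree ≤ ∑ i, nd i := natDegree_prod_le' _ _ _ fun i _ => hdeg i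
  have hb' : (fun i => reflect (nd i) (a i)) = b := by
    funext i
    rw [hb i]
  have hLx : reflect (∑ i, nd i) (LamG ρ a (fun i => derivative (a i))) =
      X * (((m * ((c : ℕ) + 1) : ℕ) : A[X][X]) * ∏ i, b i -
        LamG ρ b (fun i => X * derivative (b i))) := by
    rw [refl_lam ρ nd a _ hdeg fun i => (natDegree_derivative_le _).trans
      ((Nat.sub_le _ _).trans (hdeg i)), hb', ← hsum, ← lam_lin]
    congr 1
    funext i
    rw [refl_der _ _ (hdeg i), ← hb i]
  have hLt : reflect (∑ i, nd i) (LamG ρ a (fun i => dt (a i))) =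
      LamG ρ b (fun i => dt (b i)) := by
    rw [refl_lam ρ nd a _ hdeg fun i => (dt_natDegree_le _).trans (hdeg i), hb']
    congr 1
    funext i
    rw [dt_reflect, ← hb i]
  have hdLx : (LamG ρ a (fun i => derivative (a i))).natDegree ≤ ∑ i, nd i :=
    natDegree_lam ρ nd a _ hdeg fun i => (natDegree_derivative_le _).trans
      ((Nat.sub_le _ _).trans (hdeg i))
  have hdLt : (LamG ρ a (fun i => dt (a i))).natDegree ≤ ∑ i, nd i :=
    natDegree_lam ρ nd a _ hdeg fun i => (dt_natDegree_le _).trans (hdeg i)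
  obtain ⟨Q, hQ⟩ : ∃ Q, Q = ∏ i, b i := ⟨_, rfl⟩
  have hQa : reflect (∑ i, nd i) (∏ i, a i) = Q := by
    rw [refl_prod _ _ _ fun i _ => hdeg i, hQ]
    exact Finset.prod_congr rfl fun i _ => (hb i).symm
  have hrefl := congrArg (reflect ((n + 1) + ∑ i, nd i)) hrel
  rw [reflect_add, reflect_mul ((m : A[X][X]) * P l) _ (F := n + 1) (by
      refine natDegree_mul_le.trans ?_
      rw [natDegree_natCast, zero_add]
      exact hP.le) hda, reflect_mul (S l) _ hS hdLx,
    reflect_mul (Polynomial.C W * X ^ (l : ℕ)) _ (F := n + 1)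
      ((natDegree_C_mul_X_pow_le _ _).trans (by omega)) hdLt, hLx, hLt, hQa,
    reflect_C_mul_X_pow, refl_nat, refl_succ (P l) n (by omega), revAt_le (by omega)] at hrefl
  have h7 : n + 1 - (l : ℕ) = (n - l) + 1 := by omega
  rw [h7, pow_succ] at hrefl
  rw [← hQ] at e1 e2 hrefl
  -- division by `X`
  have hrefl' : (m : A[X][X]) * reflect n (P l) * Q + reflect (n + 1) (S l) *
      (((m * ((c : ℕ) + 1) : ℕ) : A[X][X]) * Q - LamG ρ b (fun i => X * derivative (b i))) =
      Polynomial.C W * X ^ (n - (l : ℕ)) * LamG ρ b (fun i => dt (b i)) := by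
    refine mul_left_cancel₀ (X_ne_zero : (X : A[X][X]) ≠ 0) ?_
    linear_combination hrefl
  obtain ⟨F, hF⟩ : ∃ F, F = reflect n (P l) * T + reflect (n + 1) (S l) *
      ((((c : ℕ) + 1 : ℕ) : A[X][X]) * T + X * derivative T) +
        Polynomial.C W * X ^ (n - (l : ℕ)) * dt T := ⟨_, rfl⟩
  have h8 : X ^ (n + 2) ∣ Q * ((m : A[X][X]) * F) := by
    obtain ⟨U1, hU1⟩ := e1
    obtain ⟨U2, hU2⟩ := e2
    refine ⟨reflect (n + 1) (S l) * U2 + Polynomial.C W * X ^ (n - (l : ℕ)) * U1, ?_⟩
    rw [hF]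
    push_cast at hrefl' ⊢
    linear_combination T * hrefl' + reflect (n + 1) (S l) * hU2 +
      Polynomial.C W * X ^ (n - (l : ℕ)) * hU1
  have hQ0 : Q.coeff 0 = 1 := by
    rw [hQ, coeff_zero_eq_eval_zero, eval_prod]
    refine Finset.prod_eq_one fun i _ => ?_
    rw [← coeff_zero_eq_eval_zero, hb i, coeff_reflect, revAt_le (Nat.zero_le _), Nat.sub_zero,
      ← (ha.1 i).2]
    exact (ha.1 i).1.coeff_natDegree
  have hcop : IsCoprime ((X : A[X][X]) ^ (n + 2)) Q := by
    refine IsCoprime.pow_left ⟨-divX Q, 1, ?_⟩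
    have h9 := divX_mul_X_add Q
    rw [hQ0, map_one] at h9
    linear_combination -h9
  have h9 := (X_pow_dvd_iff.1 (hcop.dvd_of_dvd_mul_left h8)) (n - c) (by omega)
  rw [coeff_natCast_mul] at h9
  have h10 : F.coeff (n - c) = 0 := by
    rcases mul_eq_zero.1 h9 with h | h
    · exact absurd (Nat.cast_eq_zero.1 h) hm0.ne'
    · exact h
  -- the coefficient
  have h11 := coeff_XD (reflect (n + 1) (S l) * T) (n - c)
  have h12 := res_coeff n c hcn T (P l + derivative (S l))
  have h13 : reflect n (P l + derivative (S l)) = reflect n (P l) +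
      (((n + 1 : ℕ) : A[X][X]) * reflect (n + 1) (S l) -
        X * derivative (reflect (n + 1) (S l))) := by
    rw [reflect_add, refl_der' _ _ hS]
  rw [h13] at h12
  have h14 : Polynomial.C W * X ^ (n - (l : ℕ)) * dt T =
      Polynomial.C W * (X ^ (n - (l : ℕ)) * dt T) := mul_assoc _ _ _
  have h15 : (X ^ (n - (l : ℕ)) * dt T).coeff (n - c) = derivative (res c T l) := by
    rw [coeff_X_pow_mul', res]
    by_cases hlc : (l : ℕ) < c
    · rw [if_neg (by omega), if_pos hlc, derivative_zero]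
    · rw [if_pos (by omega), if_neg hlc, coeff_dt]
      congr 2
      omega
  have h16 : W * derivative (res c T l) = (Polynomial.C W * X ^ (n - (l : ℕ)) * dt T).coeff (n - c) := by
    rw [h14, coeff_C_mul, h15]
  have h17 : ∑ j : Fin (n + 1), res c T j * Mc P S j l =
      -∑ j : Fin (n + 1), res c T j * (P l + derivative (S l)).coeff j := by
    rw [← Finset.sum_neg_distrib]
    refine Finset.sum_congr rfl fun j _ => ?_
    rw [Mc, Matrix.of_apply]
    ring
  rw [h16, h17, ← h12]
  have h18 : Polynomial.C W * X ^ (n - (l : ℕ)) * dt T = F -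
      (reflect n (P l) + (((n + 1 : ℕ) : A[X][X]) * reflect (n + 1) (S l) -
        X * derivative (reflect (n + 1) (S l)))) * T -
      (X * derivative (reflect (n + 1) (S l) * T) -
        (((n - (c : ℕ) : ℕ)) : A[X][X]) * (reflect (n + 1) (S l) * T)) := by
    rw [hF, derivative_mul]
    have h19 : ((n + 1 : ℕ) : A[X][X]) = (((c : ℕ) + 1 : ℕ) : A[X][X]) + ((n - (c : ℕ) : ℕ) : A[X][X]) := by
      rw [← Nat.cast_add]
      congr 1
      omega
    rw [h19]
    ring
  rw [h18, coeff_sub, coeff_sub, coeff_sub, h10, h11, coeff_natCast_mul]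
  ring

end Pool.Agent.Helper13.IX
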